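import Mathlib

/-!
# The constant `K_g` for `g(x) = 2^(x-1)` equals `2`

Lower bound: for generators `s, s'` the number of `x ∈ D` with `s' s x ∉ D` is at most `|∂D|`,
so a word of length `2k` moves at most `k |∂D|` points out of `D`; averaging over the ball of
radius `2n - 2` gives `Føl(n) ≥ γ(2n-2)/n`.
Upper bound: the lamplighter group with generators `t, at` and their inverses.
-/

namespace Pool.Agent.Results.MP_60a09a_al.FolnerConstant

open Filter

/-- The word length of `x` with respect to `S`: the least length of a word in elements of `S`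
whose product is `x`. -/
noncomputable def wordLength {G : Type} [Group G] (S : Finset G) (x : G) : ℕ :=
  sInf {m : ℕ | ∃ l : List G, l.length = m ∧ (∀ s ∈ l, s ∈ S) ∧ l.prod = x}

/-- The growth function: the number of elements of word length at most `r`. -/
noncomputable def growth {G : Type} [Group G] (S : Finset G) (r : ℕ) : ℕ :=
  {x : G | wordLength S x ≤ r}.ncard

/-- The inner boundary of `D`. -/
def innerBoundary {G : Type} [Group G] (S : Finset G) (D : Finset G) : Set G :=
  {x : G | x ∈ D ∧ ∃ s ∈ S, s * x ∉ D}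

/-- The Følner function, with value `⊤` when no admissible `D` exists. -/
noncomputable def folner {G : Type} [Group G] (S : Finset G) (n : ℕ) : ℕ∞ :=
  sInf {m : ℕ∞ | ∃ D : Finset G, D.Nonempty ∧
    ((innerBoundary S D).ncard : ℝ) / (D.card : ℝ) ≤ 1 / (n : ℝ) ∧ m = (D.card : ℕ∞)}

/-- The inverse `t ↦ 1 + log₂ t` of `g(x) = 2^(x-1)`, with `g⁻¹(∞) = ∞`. -/
noncomputable def gInv (t : ℕ∞) : EReal :=
  if t = ⊤ then ⊤ else ((1 + Real.logb 2 (t.toNat : ℝ) : ℝ) : EReal)

/-- The constant `K_g` for `g(x) = 2^(x-1)`. -/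
noncomputable def K : EReal :=
  sInf {c : EReal | ∃ (G : Type) (_ : Group G) (S : Finset G),
    (∀ s ∈ S, s⁻¹ ∈ S) ∧ Subgroup.closure (S : Set G) = ⊤ ∧
    (∀ n : ℕ, 1 ≤ n → (2 : ℝ) ^ ((n : ℝ) - 1) ≤ (growth S (n - 1) : ℝ)) ∧
    c = liminf (fun n : ℕ => gInv (folner S n) / (n : EReal)) atTop}

/-! ### Words and balls -/

section General

variable {G : Type} [Group G]

theorem exists_word {S : Finset G} (hs : ∀ s ∈ S, s⁻¹ ∈ S)
    (hg : Subgroup.closure (S : Set G) = ⊤) (x : G) :
    ∃ l : List G, (∀ s ∈ l, s ∈ S) ∧ l.prod = x := by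
  have hx : x ∈ Subgroup.closure (S : Set G) := by rw [hg]; trivial
  induction hx using Subgroup.closure_induction with
  | mem x hx => exact ⟨[x], by simpa using hx, by simp⟩
  | one => exact ⟨[], by simp, by simp⟩
  | mul x y _ _ hx hy =>
    obtain ⟨l, hl, rfl⟩ := hx
    obtain ⟨m, hm, rfl⟩ := hy
    refine ⟨l ++ m, ?_, by simp⟩
    intro s h
    rcases List.mem_append.1 h with h | h
    · exact hl s h
    · exact hm s h
  | inv x _ hx =>
    obtain ⟨l, hl, rfl⟩ := hx
    refine ⟨(l.map fun s => s⁻¹).reverse, ?_, ?_⟩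
    · intro s h
      simp only [List.mem_reverse, List.mem_map] at h
      obtain ⟨t, ht, rfl⟩ := h
      exact hs t (hl t ht)
    · rw [List.prod_inv_reverse]

theorem mem_ball_iff {S : Finset G} (hs : ∀ s ∈ S, s⁻¹ ∈ S)
    (hg : Subgroup.closure (S : Set G) = ⊤) (r : ℕ) (x : G) :
    wordLength S x ≤ r ↔ ∃ l : List G, l.length ≤ r ∧ (∀ s ∈ l, s ∈ S) ∧ l.prod = x := by
  constructor
  · intro h
    have hne : {m : ℕ | ∃ l : List G, l.length = m ∧ (∀ s ∈ l, s ∈ S) ∧ l.prod = x}.Nonempty := by
      obtain ⟨l, hl, hp⟩ := exists_word hs hg x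
      exact ⟨l.length, l, rfl, hl, hp⟩
    obtain ⟨l, h1, h2, h3⟩ := Nat.sInf_mem hne
    exact ⟨l, by rw [h1]; exact h, h2, h3⟩
  · rintro ⟨l, h1, h2, h3⟩
    exact le_trans (Nat.sInf_le ⟨l, rfl, h2, h3⟩) h1

theorem ball_finite {S : Finset G} (hs : ∀ s ∈ S, s⁻¹ ∈ S)
    (hg : Subgroup.closure (S : Set G) = ⊤) (r : ℕ) :
    {x : G | wordLength S x ≤ r}.Finite := by
  have h1 : {l : List S | l.length ≤ r}.Finite := List.finite_length_le S r
  refine (h1.image fun l => (l.map Subtype.val).prod).subset ?_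
  intro x hx
  obtain ⟨l, h1, h2, h3⟩ := (mem_ball_iff hs hg r x).1 hx
  refine ⟨l.attach.map fun s => ⟨s.1, h2 s.1 s.2⟩, by simpa using h1, ?_⟩
  simp only [List.map_map]
  rw [← h3]
  congr 1
  simp [Function.comp_def]

/-! ### The improved isoperimetric inequality -/

open Classical in
/-- points of `D` moved out of `D` by `g` -/
noncomputable def exitSet (D : Finset G) (g : G) : Finset G := D.filter fun x => g * x ∉ D

open Classical in
theorem card_exit_inv (D : Finset G) (g : G) : (exitSet D g⁻¹).card = (exitSet D g).card := by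
  have h1 : ∀ g : G, (D.filter fun x => g * x ∈ D).card + (exitSet D g).card = D.card := by
    intro g
    unfold exitSet
    exact Finset.card_filter_add_card_filter_not _
  have h2 : (D.filter fun x => g⁻¹ * x ∈ D).card = (D.filter fun x => g * x ∈ D).card := by
    refine Finset.card_bij (fun x _ => g⁻¹ * x) ?_ ?_ ?_
    · intro x hx
      simp only [Finset.mem_filter] at hx ⊢
      exact ⟨hx.2, by simpa using hx.1⟩
    · intro x _ y _ h
      simpa using h
    · intro y hy
      simp only [Finset.mem_filter] at hy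
      exact ⟨g * y, by simp [hy.1, hy.2], by simp⟩
  have := h1 g
  have := h1 g⁻¹
  omega

open Classical in
theorem card_exit_mul (D : Finset G) (g h : G) :
    (exitSet D (g * h)).card ≤ (exitSet D g).card + (exitSet D h).card := by
  have h1 : exitSet D (g * h) ⊆ (exitSet D g).image (fun y => h⁻¹ * y) ∪ exitSet D h := by
    intro x hx
    simp only [exitSet, Finset.mem_filter, Finset.mem_union, Finset.mem_image] at hx ⊢
    by_cases hh : h * x ∈ D
    · left
      exact ⟨h * x, ⟨hh, by simpa [mul_assoc] using hx.2⟩, by simp⟩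
    · right
      exact ⟨hx.1, hh⟩
  have h2 := Finset.card_le_card h1
  have h3 := Finset.card_union_le ((exitSet D g).image (fun y => h⁻¹ * y)) (exitSet D h)
  have h4 : ((exitSet D g).image (fun y => h⁻¹ * y)).card ≤ (exitSet D g).card :=
    Finset.card_image_le
  omega

open Classical in
/-- the inner boundary as a finite set -/
noncomputable def bd (S D : Finset G) : Finset G := D.filter fun x => ∃ s ∈ S, s * x ∉ D

theorem ncard_innerBoundary (S D : Finset G) : (innerBoundary S D).ncard = (bd S D).card := by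
  rw [← Set.ncard_coe_finset]
  congr 1
  ext x
  simp [innerBoundary, bd]

theorem exit_subset_bd {S : Finset G} (D : Finset G) {s : G} (h : s ∈ S) :
    exitSet D s ⊆ bd S D := by
  intro x hx
  simp only [exitSet, bd, Finset.mem_filter] at hx ⊢
  exact ⟨hx.1, s, h, hx.2⟩

open Classical in
theorem card_exit_two {S : Finset G} (hs : ∀ s ∈ S, s⁻¹ ∈ S) (D : Finset G) {s t : G}
    (h1 : s ∈ S) (h2 : t ∈ S) : (exitSet D (s * t)).card ≤ (bd S D).card := by
  have h3 : exitSet D (s * t) ⊆
      (bd S D \ exitSet D t⁻¹).image (fun y => t⁻¹ * y) ∪ exitSet D t := by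
    intro x hx
    simp only [exitSet, bd, Finset.mem_filter, Finset.mem_union, Finset.mem_image,
      Finset.mem_sdiff] at hx ⊢
    by_cases hh : t * x ∈ D
    · left
      refine ⟨t * x, ⟨⟨hh, s, h1, by simpa [mul_assoc] using hx.2⟩, ?_⟩, by simp⟩
      simp [hx.1]
    · right
      exact ⟨hx.1, hh⟩
  have h4 : exitSet D t⁻¹ ⊆ bd S D := exit_subset_bd D (hs t h2)
  have h5 := Finset.card_sdiff_add_card_eq_card h4
  have h6 := card_exit_inv D t
  have h7 := Finset.card_le_card h3
  have h8 := Finset.card_union_le ((bd S D \ exitSet D t⁻¹).image (fun y => t⁻¹ * y)) (exitSet D t)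
  have h9 : ((bd S D \ exitSet D t⁻¹).image (fun y => t⁻¹ * y)).card ≤
      (bd S D \ exitSet D t⁻¹).card := Finset.card_image_le
  omega

theorem card_exit_word {S : Finset G} (hs : ∀ s ∈ S, s⁻¹ ∈ S) (D : Finset G) (k : ℕ) :
    ∀ l : List G, l.length ≤ 2 * k → (∀ s ∈ l, s ∈ S) →
      (exitSet D l.prod).card ≤ k * (bd S D).card := by
  have h0 : exitSet D (1 : G) = ∅ := by
    ext x
    simp [exitSet]
  induction k with
  | zero =>
    intro l hl _
    have : l = [] := List.length_eq_zero_iff.1 (by omega)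
    subst this
    simp [h0]
  | succ k ih =>
    intro l hl hS
    match l, hl, hS with
    | [], _, _ => simp [h0]
    | [s], _, hS =>
      have := Finset.card_le_card (exit_subset_bd D (hS s (by simp)))
      simp only [List.prod_cons, List.prod_nil, mul_one]
      nlinarith
    | s :: t :: m, hl, hS =>
      have h1 := card_exit_two hs D (hS s (by simp)) (hS t (by simp))
      have h2 := ih m (by simp only [List.length_cons] at hl; omega)
        (fun u hu => hS u (by simp [hu]))
      have h3 := card_exit_mul D (s * t) m.prod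
      simp only [List.prod_cons, ← mul_assoc]
      nlinarith

open Classical in
theorem averaging (D B : Finset G) (c : ℕ) (h : ∀ g ∈ B, (exitSet D g).card ≤ c) :
    B.card * D.card ≤ D.card * D.card + B.card * c := by
  have h1 : ∀ g : G, (D.filter fun x => g * x ∈ D).card + (exitSet D g).card = D.card := by
    intro g
    unfold exitSet
    exact Finset.card_filter_add_card_filter_not _
  have h2 : ∑ g ∈ B, (D.filter fun x => g * x ∈ D).card ≤ D.card * D.card := by
    have : ∑ g ∈ B, (D.filter fun x => g * x ∈ D).card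
        = ∑ x ∈ D, (B.filter fun g => g * x ∈ D).card := by
      simp only [Finset.card_filter]
      exact Finset.sum_comm
    rw [this]
    have h3 : ∀ x ∈ D, (B.filter fun g => g * x ∈ D).card ≤ D.card := by
      intro x _
      refine Finset.card_le_card_of_injOn (fun g => g * x) ?_ ?_
      · intro g hg
        simp only [Finset.coe_filter, Set.mem_ofPred_eq] at hg
        exact hg.2
      · intro g _ g' _ hh
        simpa using hh
    calc _ ≤ ∑ _x ∈ D, D.card := Finset.sum_le_sum h3
      _ = _ := by simp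
  have h3 : ∑ g ∈ B, (exitSet D g).card ≤ B.card * c := by
    calc _ ≤ ∑ _g ∈ B, c := Finset.sum_le_sum h
      _ = _ := by simp
  have h4 : ∑ g ∈ B, ((D.filter fun x => g * x ∈ D).card + (exitSet D g).card)
      = B.card * D.card := by
    simp [h1]
  rw [Finset.sum_add_distrib] at h4
  omega

/-- `Føl(n) ≥ γ(2n-2)/n`. -/
theorem growth_le {S : Finset G} (hs : ∀ s ∈ S, s⁻¹ ∈ S)
    (hg : Subgroup.closure (S : Set G) = ⊤) (k : ℕ) (D : Finset G) (hD : D.Nonempty)
    (h : (k + 1) * (bd S D).card ≤ D.card) : growth S (2 * k) ≤ (k + 1) * D.card := by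
  have hfin := ball_finite hs hg (2 * k)
  have hB : growth S (2 * k) = hfin.toFinset.card := Set.ncard_eq_toFinset_card _ hfin
  have h1 := averaging D hfin.toFinset (k * (bd S D).card) (by
    intro g hgB
    rw [Set.Finite.mem_toFinset] at hgB
    obtain ⟨l, h1, h2, rfl⟩ := (mem_ball_iff hs hg _ g).1 hgB
    exact card_exit_word hs D k l h1 h2)
  rw [hB]
  have hpos : 0 < D.card := hD.card_pos
  generalize hfin.toFinset.card = b at *
  generalize (bd S D).card = e at *
  generalize D.card = d at *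
  have h2 : (k + 1) * (b * d) ≤ (k + 1) * (d * d) + b * k * ((k + 1) * e) := by
    calc _ ≤ (k + 1) * (d * d + b * (k * e)) := Nat.mul_le_mul_left _ h1
      _ = _ := by ring
  have h3 : b * k * ((k + 1) * e) ≤ b * k * d := Nat.mul_le_mul_left _ h
  have h4 : b * d ≤ (k + 1) * d * d := by nlinarith
  exact Nat.le_of_mul_le_mul_right h4 hpos

end General

/-! ### Asymptotics -/

theorem tendsto_aux (a b : ℝ) :
    Tendsto (fun n : ℕ => (a + 2 * (n : ℝ) + b * Real.logb 2 (n : ℝ)) / (n : ℝ)) atTop (nhds 2) := by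
  have h1 : Tendsto (fun n : ℕ => Real.log (n : ℝ) / (n : ℝ)) atTop (nhds 0) := by
    have := Real.isLittleO_log_id_atTop.tendsto_div_nhds_zero
    exact this.comp tendsto_natCast_atTop_atTop
  have h2 : Tendsto (fun n : ℕ => a / (n : ℝ)) atTop (nhds 0) :=
    tendsto_const_div_atTop_nhds_zero_nat a
  have h3 := (h2.add (tendsto_const_nhds (x := (2 : ℝ)))).add (h1.const_mul (b / Real.log 2))
  simp only [zero_add, mul_zero, add_zero] at h3
  refine h3.congr' ?_
  filter_upwards [eventually_ge_atTop 1] with n hn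
  have : (n : ℝ) ≠ 0 := by positivity
  rw [Real.logb]
  field_simp

theorem gInv_div_coe (m n : ℕ) :
    gInv (m : ℕ∞) / (n : EReal) = (((1 + Real.logb 2 (m : ℝ)) / (n : ℝ) : ℝ) : EReal) := by
  unfold gInv
  rw [if_neg (ENat.natCast_ne_top m), ENat.toNat_natCast, EReal.coe_div]
  rfl

theorem folner_spec {G : Type} [Group G] (S : Finset G) (n : ℕ) (h : folner S n ≠ ⊤) :
    ∃ D : Finset G, D.Nonempty ∧
      ((innerBoundary S D).ncard : ℝ) / (D.card : ℝ) ≤ 1 / (n : ℝ) ∧
      folner S n = (D.card : ℕ∞) := by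
  unfold folner at h ⊢
  have hne : {m : ℕ∞ | ∃ D : Finset G, D.Nonempty ∧
      ((innerBoundary S D).ncard : ℝ) / (D.card : ℝ) ≤ 1 / (n : ℝ) ∧
      m = (D.card : ℕ∞)}.Nonempty := by
    by_contra hh
    rw [Set.not_nonempty_iff_eq_empty] at hh
    rw [hh] at h
    simp at h
  exact csInf_mem hne

theorem ratio_iff {G : Type} [Group G] (S D : Finset G) (hD : D.Nonempty) (n : ℕ) (hn : 1 ≤ n) :
    ((innerBoundary S D).ncard : ℝ) / (D.card : ℝ) ≤ 1 / (n : ℝ) ↔
      n * (bd S D).card ≤ D.card := by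
  have h1 : (0 : ℝ) < D.card := by exact_mod_cast hD.card_pos
  have h2 : (0 : ℝ) < n := by exact_mod_cast hn
  rw [ncard_innerBoundary, div_le_div_iff₀ h1 h2, one_mul, mul_comm]
  exact_mod_cast Iff.rfl

theorem lower_bound {G : Type} [Group G] (S : Finset G) (hs : ∀ s ∈ S, s⁻¹ ∈ S)
    (hg : Subgroup.closure (S : Set G) = ⊤)
    (hgr : ∀ n : ℕ, 1 ≤ n → (2 : ℝ) ^ ((n : ℝ) - 1) ≤ (growth S (n - 1) : ℝ)) :
    (2 : EReal) ≤ liminf (fun n : ℕ => gInv (folner S n) / (n : EReal)) atTop := by
  have h1 := tendsto_aux (-1) (-1)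
  have h2 : Tendsto (fun n : ℕ =>
      (((-1 + 2 * (n : ℝ) + -1 * Real.logb 2 (n : ℝ)) / (n : ℝ) : ℝ) : EReal)) atTop
      (nhds (2 : EReal)) := (continuous_coe_real_ereal.tendsto 2).comp h1
  rw [← h2.liminf_eq]
  refine liminf_le_liminf ?_
  filter_upwards [eventually_ge_atTop 1] with n hn
  by_cases h : folner S n = ⊤
  · have h3 : gInv (folner S n) / (n : EReal) = ⊤ := by
      unfold gInv
      rw [if_pos h]
      refine EReal.top_div_of_pos_ne_top ?_ (EReal.natCast_ne_top n)
      exact_mod_cast hn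
    rw [h3]
    exact le_top
  · obtain ⟨D, hD, hr, hF⟩ := folner_spec S n h
    rw [hF, gInv_div_coe, EReal.coe_le_coe_iff]
    rw [ratio_iff S D hD n hn] at hr
    obtain ⟨k, rfl⟩ : ∃ k, n = k + 1 := ⟨n - 1, by omega⟩
    have h3 := growth_le hs hg k D hD hr
    have h4 := hgr (2 * k + 1) (by omega)
    have h5 : (2 : ℝ) ^ ((2 * k : ℕ) : ℝ) ≤ ((k + 1 : ℕ) : ℝ) * (D.card : ℝ) := by
      have h6 : (growth S (2 * k) : ℝ) ≤ ((k + 1 : ℕ) : ℝ) * (D.card : ℝ) := by exact_mod_cast h3
      refine le_trans ?_ h6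
      have h8 : (((2 * k + 1 : ℕ) : ℝ) - 1) = ((2 * k : ℕ) : ℝ) := by
        push_cast
        ring
      rw [h8] at h4
      exact h4
    have hk : (0 : ℝ) < ((k + 1 : ℕ) : ℝ) := by positivity
    have hd : (0 : ℝ) < (D.card : ℝ) := by exact_mod_cast hD.card_pos
    have h7 := Real.logb_le_logb_of_le (b := 2) (by norm_num) (by positivity) h5
    rw [Real.logb_rpow (by norm_num) (by norm_num), Real.logb_mul hk.ne' hd.ne'] at h7
    refine div_le_div_of_nonneg_right ?_ hk.le
    push_cast at h7 ⊢
    linarith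

/-! ### The lamplighter group -/

/-- The unrestricted lamplighter group: lamp configuration and cursor position. -/
@[ext] structure W where
  f : ℤ → ZMod 2
  k : ℤ

instance : Mul W := ⟨fun g h => ⟨fun i => h.f i + g.f (i - h.k), g.k + h.k⟩⟩
instance : One W := ⟨⟨fun _ => 0, 0⟩⟩
instance : Inv W := ⟨fun g => ⟨fun i => -g.f (i + g.k), -g.k⟩⟩

@[simp] theorem mul_f (g h : W) (i : ℤ) : (g * h).f i = h.f i + g.f (i - h.k) := rfl
@[simp] theorem mul_k (g h : W) : (g * h).k = g.k + h.k := rfl
@[simp] theorem one_f (i : ℤ) : (1 : W).f i = 0 := rfl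
@[simp] theorem one_k : (1 : W).k = 0 := rfl
@[simp] theorem inv_f (g : W) (i : ℤ) : (g⁻¹).f i = -g.f (i + g.k) := rfl
@[simp] theorem inv_k (g : W) : (g⁻¹).k = -g.k := rfl

instance : Group W := Group.ofLeftAxioms
  (by
    intro a b c
    ext i
    · simp only [mul_f, mul_k]
      rw [add_assoc, show i - c.k - b.k = i - (b.k + c.k) by ring]
    · simp only [mul_k]
      ring)
  (by
    intro a
    ext i <;> simp)
  (by
    intro a
    ext i
    · simp only [mul_f, inv_f, one_f]
      rw [sub_add_cancel, add_neg_cancel]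
    · simp)

/-- move the cursor -/
def wa : W := ⟨fun _ => 0, 1⟩
/-- switch the lamp, then move the cursor -/
def wb : W := ⟨fun i => if i = 0 then 1 else 0, 1⟩

/-- The lamplighter group. -/
def LL : Subgroup W := Subgroup.closure {wa, wb}

/-- first generator -/
def ga : LL := ⟨wa, Subgroup.subset_closure (by simp)⟩
/-- second generator -/
def gb : LL := ⟨wb, Subgroup.subset_closure (by simp)⟩

open Classical in
/-- the symmetric generating set -/
noncomputable def gens : Finset LL := {ga, gb, ga⁻¹, gb⁻¹}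

theorem mem_gens (s : LL) : s ∈ gens ↔ s = ga ∨ s = gb ∨ s = ga⁻¹ ∨ s = gb⁻¹ := by
  simp [gens]

theorem gens_symm : ∀ s ∈ gens, s⁻¹ ∈ gens := by
  intro s hs
  rw [mem_gens] at hs ⊢
  rcases hs with rfl | rfl | rfl | rfl <;> simp

theorem gens_closure : Subgroup.closure (gens : Set LL) = ⊤ := by
  have h := Subgroup.closure_closure_coe_preimage (k := ({wa, wb} : Set W))
  rw [eq_top_iff]
  refine le_trans (le_of_eq h.symm) (Subgroup.closure_mono ?_)
  intro x hx
  simp only [Set.mem_preimage, Set.mem_insert_iff, Set.mem_singleton_iff] at hx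
  refine Finset.mem_coe.2 ((mem_gens x).2 ?_)
  rcases hx with hx | hx
  · left; exact Subtype.ext hx
  · right; left; exact Subtype.ext hx

open Classical in
/-- products of `m` letters among `ga`, `gb` -/
noncomputable def T : ℕ → Finset LL
  | 0 => {1}
  | m + 1 => (T m).image (fun x => ga * x) ∪ (T m).image (fun x => gb * x)

theorem T_inv (m : ℕ) : ∀ x ∈ T m, (x : W).k = m ∧ (∀ i : ℤ, (m : ℤ) ≤ i → (x : W).f i = 0) ∧
    ∃ l : List LL, l.length ≤ m ∧ (∀ s ∈ l, s ∈ gens) ∧ l.prod = x := by
  induction m with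
  | zero =>
    intro x hx
    simp only [T, Finset.mem_singleton] at hx
    subst hx
    exact ⟨by simp, by simp, [], by simp, by simp, by simp⟩
  | succ m ih =>
    intro x hx
    simp only [T, Finset.mem_union, Finset.mem_image] at hx
    rcases hx with ⟨y, hy, rfl⟩ | ⟨y, hy, rfl⟩
    · obtain ⟨h1, h2, l, h3, h4, h5⟩ := ih y hy
      refine ⟨?_, ?_, ga :: l, by simpa using h3, ?_, by simp [h5]⟩
      · simp [ga, wa, h1]
        ring
      · intro i hi
        simp [ga, wa, h2 i (by omega)]
      · intro s hs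
        rcases List.mem_cons.1 hs with rfl | hs
        · simp [mem_gens]
        · exact h4 s hs
    · obtain ⟨h1, h2, l, h3, h4, h5⟩ := ih y hy
      refine ⟨?_, ?_, gb :: l, by simpa using h3, ?_, by simp [h5]⟩
      · simp [gb, wb, h1]
        ring
      · intro i hi
        have : ¬ (i - (m : ℤ) = 0) := by omega
        simp [gb, wb, h2 i (by omega), h1, this]
      · intro s hs
        rcases List.mem_cons.1 hs with rfl | hs
        · simp [mem_gens]
        · exact h4 s hs

open Classical in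
theorem T_card (m : ℕ) : (T m).card = 2 ^ m := by
  induction m with
  | zero => simp [T]
  | succ m ih =>
    have hd : Disjoint ((T m).image (fun x => ga * x)) ((T m).image (fun x => gb * x)) := by
      rw [Finset.disjoint_left]
      intro x hx hx'
      simp only [Finset.mem_image] at hx hx'
      obtain ⟨y, hy, rfl⟩ := hx
      obtain ⟨z, hz, hzy⟩ := hx'
      obtain ⟨h1, h2, -⟩ := T_inv m y hy
      obtain ⟨h3, h4, -⟩ := T_inv m z hz
      have h5 := congrArg (fun x : LL => (x : W).f m) hzy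
      simp [ga, gb, wa, wb, h2 m le_rfl, h3, h4 m le_rfl] at h5
    simp only [T]
    rw [Finset.card_union_of_disjoint hd, Finset.card_image_of_injective _ (mul_right_injective _),
      Finset.card_image_of_injective _ (mul_right_injective _), ih]
    ring

theorem growth_ge (m : ℕ) : 2 ^ m ≤ growth gens m := by
  rw [← T_card, ← Set.ncard_coe_finset]
  refine Set.ncard_le_ncard ?_ (ball_finite gens_symm gens_closure m)
  intro x hx
  exact (mem_ball_iff gens_symm gens_closure m x).2 (T_inv m x hx).2.2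

/-- elements with cursor at `j` and lamps supported in `[0, N)` -/
def level (N : ℕ) (j : ℕ) : Set LL :=
  {x | (x : W).k = j ∧ ∀ i : ℤ, (i < 0 ∨ (N : ℤ) ≤ i) → (x : W).f i = 0}

theorem level_injOn (N j : ℕ) :
    Set.InjOn (fun (x : LL) (i : Fin N) => (x : W).f (i : ℕ)) (level N j) := by
  intro x hx y hy h
  apply Subtype.ext
  ext i
  · by_cases hi : i < 0 ∨ (N : ℤ) ≤ i
    · rw [hx.2 i hi, hy.2 i hi]
    · have h1 : i.toNat < N := by omega
      have h2 := congrFun h ⟨i.toNat, h1⟩
      have h3 : ((i.toNat : ℕ) : ℤ) = i := by omega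
      simpa [h3] using h2
  · rw [hx.1, hy.1]

theorem level_finite (N j : ℕ) : (level N j).Finite :=
  Set.Finite.of_finite_image (Set.toFinite _) (level_injOn N j)

theorem level_ncard_le (N j : ℕ) : (level N j).ncard ≤ 2 ^ N := by
  have := Set.ncard_le_ncard_of_injOn (t := (Set.univ : Set (Fin N → ZMod 2))) _
    (fun _ _ => Set.mem_univ _) (level_injOn N j) (Set.toFinite _)
  simpa [Set.ncard_univ] using this

theorem level_succ (N j : ℕ) : level N (j + 1) = (fun x => ga * x) '' level N j := by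
  ext x
  constructor
  · intro hx
    refine ⟨ga⁻¹ * x, ⟨?_, ?_⟩, by simp⟩
    · have := hx.1
      simp [ga, wa, this]
    · intro i hi
      simp [ga, wa, hx.2 i hi]
  · rintro ⟨y, hy, rfl⟩
    refine ⟨?_, ?_⟩
    · have := hy.1
      simp [ga, wa, this]
      ring
    · intro i hi
      simp [ga, wa, hy.2 i hi]

theorem level_ncard (N j : ℕ) : (level N j).ncard = (level N 0).ncard := by
  induction j with
  | zero => rfl
  | succ j ih => rw [level_succ, Set.ncard_image_of_injective _ (mul_right_injective _), ih]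

open Classical in
/-- the Følner set of height `N` -/
noncomputable def DD (N : ℕ) : Finset LL :=
  (Finset.range (N + 1)).biUnion fun j => (level_finite N j).toFinset

theorem mem_DD (N : ℕ) (x : LL) : x ∈ DD N ↔ (0 ≤ (x : W).k ∧ (x : W).k ≤ N) ∧
    ∀ i : ℤ, (i < 0 ∨ (N : ℤ) ≤ i) → (x : W).f i = 0 := by
  simp only [DD, Finset.mem_biUnion, Finset.mem_range, Set.Finite.mem_toFinset, level,
    Set.mem_ofPred_eq]
  constructor
  · rintro ⟨j, hj, h1, h2⟩
    exact ⟨by omega, h2⟩
  · rintro ⟨h1, h2⟩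
    exact ⟨(x : W).k.toNat, by omega, by omega, h2⟩

open Classical in
theorem DD_card (N : ℕ) : (DD N).card = (N + 1) * (level N 0).ncard := by
  unfold DD
  rw [Finset.card_biUnion]
  · have : ∀ j, (level_finite N j).toFinset.card = (level N 0).ncard := by
      intro j
      rw [← level_ncard N j, Set.ncard_eq_toFinset_card _ (level_finite N j)]
    simp [this]
  · intro i _ j _ hij
    simp only [Function.onFun]
    rw [Finset.disjoint_left]
    intro x hx hx'
    rw [Set.Finite.mem_toFinset] at hx hx'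
    have h1 := hx.1
    have h2 := hx'.1
    omega

open Classical in
theorem DD_bd (N : ℕ) : (bd gens (DD N)).card ≤ 2 * (level N 0).ncard := by
  have h : bd gens (DD N) ⊆ (level_finite N 0).toFinset ∪ (level_finite N N).toFinset := by
    intro x hx
    simp only [bd, Finset.mem_filter] at hx
    obtain ⟨hx, s, hs, hsx⟩ := hx
    rw [mem_DD] at hx hsx
    simp only [Finset.mem_union, Set.Finite.mem_toFinset, level, Set.mem_ofPred_eq]
    by_contra hc
    have h0 : (x : W).k ≠ 0 := fun h => hc (Or.inl ⟨by simpa using h, hx.2⟩)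
    have hN : (x : W).k ≠ N := fun h => hc (Or.inr ⟨h, hx.2⟩)
    obtain ⟨⟨h1, h2⟩, h3⟩ := hx
    apply hsx
    rw [mem_gens] at hs
    rcases hs with rfl | rfl | rfl | rfl
    · refine ⟨by simp [ga, wa]; omega, fun i hi => by simp [ga, wa, h3 i hi]⟩
    · refine ⟨by simp [gb, wb]; omega, fun i hi => ?_⟩
      have : ¬ (i - (x : W).k = 0) := by omega
      simp [gb, wb, h3 i hi, this]
    · refine ⟨by simp [ga, wa]; omega, fun i hi => by simp [ga, wa, h3 i hi]⟩
    · refine ⟨by simp [gb, wb]; omega, fun i hi => ?_⟩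
      have : ¬ (i - (x : W).k + 1 = 0) := by omega
      simp [gb, wb, h3 i hi, this]
  have h1 := Finset.card_le_card h
  have h2 := Finset.card_union_le (level_finite N 0).toFinset (level_finite N N).toFinset
  rw [← Set.ncard_eq_toFinset_card _ (level_finite N 0),
    ← Set.ncard_eq_toFinset_card _ (level_finite N N), level_ncard N N] at h2
  omega

theorem DD_nonempty (N : ℕ) : (DD N).Nonempty :=
  ⟨1, by rw [mem_DD]; simp⟩

theorem folner_le (n : ℕ) (hn : 1 ≤ n) : folner gens n ≤ ((2 * n * 2 ^ (2 * n - 1) : ℕ) : ℕ∞) := by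
  have h1 : folner gens n ≤ ((DD (2 * n - 1)).card : ℕ∞) := by
    refine sInf_le ⟨DD (2 * n - 1), DD_nonempty _, ?_, rfl⟩
    rw [ratio_iff _ _ (DD_nonempty _) n hn, DD_card, show 2 * n - 1 + 1 = 2 * n by omega]
    have := DD_bd (2 * n - 1)
    nlinarith
  refine h1.trans ?_
  rw [DD_card, show 2 * n - 1 + 1 = 2 * n by omega]
  exact_mod_cast Nat.mul_le_mul_left _ (level_ncard_le _ _)

theorem upper_bound :
    liminf (fun n : ℕ => gInv (folner gens n) / (n : EReal)) atTop ≤ (2 : EReal) := by
  have h1 := tendsto_aux 1 1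
  have h2 : Tendsto (fun n : ℕ =>
      (((1 + 2 * (n : ℝ) + 1 * Real.logb 2 (n : ℝ)) / (n : ℝ) : ℝ) : EReal)) atTop
      (nhds (2 : EReal)) := (continuous_coe_real_ereal.tendsto 2).comp h1
  rw [← h2.liminf_eq]
  refine liminf_le_liminf ?_
  filter_upwards [eventually_ge_atTop 1] with n hn
  have h3 := folner_le n hn
  have h4 : folner gens n ≠ ⊤ := ne_top_of_le_ne_top (ENat.natCast_ne_top _) h3
  obtain ⟨D, hD, -, hF⟩ := folner_spec gens n h4
  rw [hF] at h3 ⊢
  rw [gInv_div_coe, EReal.coe_le_coe_iff]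
  have h5 : D.card ≤ 2 * n * 2 ^ (2 * n - 1) := by exact_mod_cast h3
  have h6 : 2 * n * 2 ^ (2 * n - 1) = n * 2 ^ (2 * n) := by
    obtain ⟨k, rfl⟩ : ∃ k, n = k + 1 := ⟨n - 1, by omega⟩
    rw [show 2 * (k + 1) - 1 = 2 * k + 1 by omega]
    ring
  rw [h6] at h5
  have h7 : (D.card : ℝ) ≤ (n : ℝ) * 2 ^ (2 * n) := by exact_mod_cast h5
  have hd : (0 : ℝ) < (D.card : ℝ) := by exact_mod_cast hD.card_pos
  have hn' : (0 : ℝ) < (n : ℝ) := by exact_mod_cast hn
  have h8 := Real.logb_le_logb_of_le (b := 2) (by norm_num) hd h7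
  rw [Real.logb_mul hn'.ne' (by positivity), Real.logb_pow, Real.logb_self_eq_one (by norm_num)]
    at h8
  refine div_le_div_of_nonneg_right ?_ hn'.le
  push_cast at h8
  linarith

theorem result : K = 2 := by
  apply le_antisymm
  · refine le_trans (sInf_le ⟨LL, inferInstance, gens, gens_symm, gens_closure, ?_, rfl⟩)
      upper_bound
    intro n hn
    obtain ⟨k, rfl⟩ : ∃ k, n = k + 1 := ⟨n - 1, by omega⟩
    have h1 : ((2 ^ k : ℕ) : ℝ) ≤ (growth gens k : ℝ) := by exact_mod_cast growth_ge k
    simpa using h1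
  · refine le_sInf ?_
    rintro c ⟨G, _, S, hs, hg, hgr, rfl⟩
    exact lower_bound S hs hg hgr

end Pool.Agent.Results.MP_60a09a_al.FolnerConstant
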