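import Pool.Agent.FS.FolSum.Main

set_option autoImplicit false

namespace Pool.Agent.Results.MP_60a09a_al.FolnerSum

open Pool.Agent.FS.FolSum

/-- A finite set with boundary ratio at most `1 / n` has at least the mean size of the balls of
radius `0, 2, …, 2n - 2`. -/
theorem result (G : Type) [Group G] (S : Finset G) (hs : ∀ s ∈ S, s⁻¹ ∈ S) (n : ℕ)
    (D : Finset G) (hD : D.Nonempty)
    (h : n * {x : G | x ∈ D ∧ ∃ s ∈ S, s * x ∉ D}.ncard ≤ D.card) :
    ∑ j ∈ Finset.range n,
        {x : G | ∃ l : List G, l.length ≤ 2 * j ∧ (∀ s ∈ l, s ∈ S) ∧ l.prod = x}.ncard ≤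
      n * D.card := by
  rcases n with _ | k
  · simp
  have hb : {x : G | x ∈ D ∧ ∃ s ∈ S, s * x ∉ D}.ncard = (bd S D).card := by
    rw [← Set.ncard_coe_finset]
    congr 1
    ext x
    simp [bd]
  rw [hb] at h
  refine le_trans (le_of_eq (Finset.sum_congr rfl fun j _ => ?_)) (main hs k D hD h)
  exact fb_card S (2 * j)

end Pool.Agent.Results.MP_60a09a_al.FolnerSum
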